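import Mathlib

set_option autoImplicit false

namespace Pool.Agent.H.MP_f98a08_co

open Finset Equiv Classical

def Av (f : ℕ → ℕ) (n : ℕ) : Prop := ∀ i j k l, i < j → j < k → k < l → l < n →
  ¬(f k < f i ∧ f i < f l ∧ f l < f j) ∧ ¬(f j < f l ∧ f l < f i ∧ f i < f k)

def Cut (f : ℕ → ℕ) (n k : ℕ) : Prop := 0 < k ∧ k < n ∧ ∀ i j, i < k → k ≤ j → j < n → f i < f j
def ACut (f : ℕ → ℕ) (n k : ℕ) : Prop := 0 < k ∧ k < n ∧ ∀ i j, i < k → k ≤ j → j < n → f j < f i

def Inj (f : ℕ → ℕ) (n : ℕ) : Prop := ∀ i j, i < n → j < n → f i = f j → i = j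

lemma ext_cut {α : Type} [LinearOrder α] (f : ℕ → α) (n k : ℕ) (h0 : 0 < k) (h1 : k < n)
    (hc : ∀ i j, i < k → k ≤ j → j < n → f i < f j) (hi : ∀ i < n, f i ≠ f n)
    (hp : ∀ i j, i < j → j < k → ¬(f j < f n ∧ f n < f i)) :
    (∃ k, 0 < k ∧ k < n + 1 ∧ ∀ i j, i < k → k ≤ j → j < n + 1 → f i < f j) ∨ ∀ i < n, f n < f i := by
  have hex : ∃ a, a = k ∨ (a < k ∧ f n < f a) := ⟨k, Or.inl rfl⟩
  have s1 := Nat.find_spec hex
  have s2 : ∀ i < Nat.find hex, i < k ∧ f i < f n := fun i h => by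
    have a1 := Nat.find_min hex h
    have a2 : Nat.find hex ≤ k := Nat.find_min' hex (Or.inl rfl)
    exact ⟨by omega, lt_of_le_of_ne (not_lt.1 fun g => a1 (Or.inr ⟨by omega, g⟩)) (hi i (by omega))⟩
  generalize Nat.find hex = a at s1 s2
  have s3 : ∀ j, a ≤ j → j < k → f n < f j := fun j g1 g2 => by
    rcases s1 with rfl | ⟨_, g3⟩
    · omega
    · rcases g1.eq_or_lt with rfl | g4
      · exact g3
      · exact lt_of_le_of_ne (not_lt.1 fun g => hp a j g4 g2 ⟨g, g3⟩) (hi j (by omega)).symm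
  rcases Nat.eq_zero_or_pos a with rfl | ha
  · refine Or.inr fun i g => ?_
    rcases lt_or_ge i k with g1 | g1
    · exact s3 i (Nat.zero_le _) g1
    · exact (s3 0 le_rfl h0).trans (hc 0 i h0 g1 g)
  · refine Or.inl ⟨a, ha, by omega, fun i j g1 g2 g3 => ?_⟩
    rcases lt_or_ge j k with g4 | g4
    · exact (s2 i g1).2.trans (s3 j g2 g4)
    · rcases (by omega : j = n ∨ j < n) with rfl | g5
      · exact (s2 i g1).2
      · exact hc i j (s2 i g1).1 g4 g5

lemma struct (f : ℕ → ℕ) (n : ℕ) (h1 : Inj f (n + 2)) (h2 : Av f (n + 2)) :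
    (∃ k, Cut f (n + 2) k) ∨ ∃ k, ACut f (n + 2) k := by
  induction n with
  | zero =>
    rcases lt_trichotomy (f 0) (f 1) with g | g | g
    · exact Or.inl ⟨1, by omega, by omega, fun i j a b c => by rwa [show i = 0 by omega, show j = 1 by omega]⟩
    · exact absurd (h1 0 1 (by omega) (by omega) g) (by omega)
    · exact Or.inr ⟨1, by omega, by omega, fun i j a b c => by rwa [show i = 0 by omega, show j = 1 by omega]⟩
  | succ n ih =>
    have hi : ∀ i < n + 2, f i ≠ f (n + 2) := fun i g e => absurd (h1 _ _ (by omega) (by omega) e) (by omega)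
    rcases ih (fun i j a b => h1 i j (by omega) (by omega)) (fun i j k l a b c d => h2 i j k l a b c (by omega))
      with ⟨k, g1, g2, g3⟩ | ⟨k, g1, g2, g3⟩
    · refine (ext_cut f (n + 2) k g1 g2 g3 hi fun i j a b c => (h2 i j k (n + 2) a b g2 (by omega)).2
        ⟨c.1, c.2, g3 i k (by omega) le_rfl g2⟩).imp id fun g => ⟨n + 2, by omega, by omega, fun i j a b c => ?_⟩
      rw [show j = n + 2 by omega]; exact g i a
    · refine (ext_cut (α := ℕᵒᵈ) f (n + 2) k g1 g2 g3 hi fun i j a b c => (h2 i j k (n + 2) a b g2 (by omega)).1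
        ⟨g3 i k (by omega) le_rfl g2, c.2, c.1⟩).symm.imp (fun g => ⟨n + 2, by omega, by omega, fun i j a b c => ?_⟩) id
      rw [show j = n + 2 by omega]; exact g i a

def ex {n : ℕ} (π : Perm (Fin n)) (i : ℕ) : ℕ := if h : i < n then π ⟨i, h⟩ else 0

lemma ex_inj (n : ℕ) : Function.Injective (ex : Perm (Fin n) → ℕ → ℕ) := fun π τ h => by
  ext i
  simpa [ex] using congrFun h i

noncomputable def PP (n : ℕ) : Finset (ℕ → ℕ) := univ.image (ex : Perm (Fin n) → ℕ → ℕ)

lemma mem_PP {n : ℕ} {f : ℕ → ℕ} : f ∈ PP n ↔ (∀ i < n, f i < n) ∧ Inj f n ∧ ∀ i, n ≤ i → f i = 0 := by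
  constructor
  · intro h
    obtain ⟨π, _, rfl⟩ := mem_image.1 h
    refine ⟨fun i g => by simp [ex, g], fun i j a b c => ?_, fun i g => dif_neg (by omega)⟩
    simpa [ex, a, b, Fin.val_inj] using c
  · rintro ⟨h1, h2, h3⟩
    have hi : Function.Injective fun i : Fin n => (⟨f i, h1 i i.2⟩ : Fin n) := fun i j e =>
      Fin.ext (h2 _ _ i.2 j.2 (congrArg Fin.val e))
    refine mem_image.2 ⟨Equiv.ofBijective _ (Finite.injective_iff_bijective.1 hi), mem_univ _, funext fun i => ?_⟩
    unfold ex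
    split_ifs with g
    · rfl
    · exact (h3 i (by omega)).symm

lemma cut_val {n k : ℕ} {f : ℕ → ℕ} (hf : f ∈ PP n) (h : Cut f n k) :
    (∀ i < k, f i < k) ∧ ∀ j, k ≤ j → j < n → k ≤ f j := by
  obtain ⟨h1, h2, _⟩ := mem_PP.1 hf
  obtain ⟨_, g1, g2⟩ := h
  constructor
  · intro i hi
    have := card_le_card_of_injOn (s := Ico k n) (t := Ioo (f i) n) f
      (fun j hj => by
        have := mem_Ico.1 (mem_coe.1 hj)
        exact mem_coe.2 (mem_Ioo.2 ⟨g2 i j hi this.1 this.2, h1 j this.2⟩))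
      (fun a ha b hb => h2 a b (mem_Ico.1 ha).2 (mem_Ico.1 hb).2)
    simp at this
    omega
  · intro j a b
    have := card_le_card_of_injOn (s := range k) (t := range (f j)) f
      (fun i hi => mem_coe.2 (mem_range.2 (g2 i j (mem_range.1 (mem_coe.1 hi)) a b)))
      (fun a ha b hb => h2 a b ((mem_range.1 ha).trans g1) ((mem_range.1 hb).trans g1))
    simpa using this

variable {R : Type} [CommRing R]

def wt (x y : R) (f : ℕ → ℕ) (n : ℕ) : R := ∏ i ∈ range n, if f (i + 1) < f i then y else x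

noncomputable def SA (x y : R) (n : ℕ) : R := ∑ f ∈ (PP (n + 1)).filter (Av · (n + 1)), wt x y f n
noncomputable def SP (x y : R) (n : ℕ) : R :=
  ∑ f ∈ (PP (n + 1)).filter (fun f => Av f (n + 1) ∧ ∃ k, Cut f (n + 1) k), wt x y f n
noncomputable def SI (x y : R) (n : ℕ) : R :=
  ∑ f ∈ (PP (n + 1)).filter (fun f => Av f (n + 1) ∧ ¬∃ k, Cut f (n + 1) k), wt x y f n

lemma SI_eq (x y : R) (n : ℕ) : SI x y n = SA x y n - SP x y n := by
  rw [SA, ← sum_filter_add_sum_filter_not _ (fun f => ∃ k, Cut f (n + 1) k), filter_filter, filter_filter, SP, SI]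
  ring

lemma co_sum (x y : R) (n : ℕ) (P Q : (ℕ → ℕ) → Prop)
    (h : ∀ f g : ℕ → ℕ, (∀ i < n + 1, f i + g i = n) → (P f ↔ Q g)) :
    ∑ f ∈ (PP (n + 1)).filter (fun f => Av f (n + 1) ∧ P f), wt x y f n =
      ∑ f ∈ (PP (n + 1)).filter (fun f => Av f (n + 1) ∧ Q f), wt y x f n := by
  let co : (ℕ → ℕ) → ℕ → ℕ := fun f i => if i < n + 1 then n - f i else 0
  have c0 : ∀ f ∈ PP (n + 1), ∀ i < n + 1, f i + co f i = n := fun f hf i hi => by
    have := (mem_PP.1 hf).1 i hi
    simp only [co, hi, if_true]; omega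
  have c1 : ∀ f ∈ PP (n + 1), Av f (n + 1) → co f ∈ PP (n + 1) ∧ Av (co f) (n + 1) := fun f hf ha => by
    refine ⟨mem_PP.2 ⟨fun i hi => ?_, fun i j a b e => (mem_PP.1 hf).2.1 i j a b ?_, fun i hi => if_neg (by omega)⟩,
      fun i j k l a b c d => ?_⟩
    · have := c0 f hf i hi; omega
    · have := c0 f hf i a; have := c0 f hf j b; omega
    · have := ha i j k l a b c d
      have := c0 f hf i (by omega); have := c0 f hf j (by omega); have := c0 f hf k (by omega)
      have := c0 f hf l d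
      omega
  have c2 : ∀ f ∈ PP (n + 1), co (co f) = f := fun f hf => funext fun i => by
    have := (mem_PP.1 hf).1 i
    have := (mem_PP.1 hf).2.2 i
    simp only [co]
    split_ifs <;> omega
  refine sum_nbij' co co (fun f hf => ?_) (fun f hf => ?_) (fun f hf => c2 f (mem_filter.1 hf).1)
    (fun f hf => c2 f (mem_filter.1 hf).1) fun f hf => ?_
  · obtain ⟨a, b, c⟩ := mem_filter.1 hf
    exact mem_filter.2 ⟨(c1 f a b).1, (c1 f a b).2, (h f _ (c0 f a)).1 c⟩
  · obtain ⟨a, b, c⟩ := mem_filter.1 hf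
    exact mem_filter.2 ⟨(c1 f a b).1, (c1 f a b).2, (h _ f fun i hi => by have := c0 f a i hi; omega).2 c⟩
  · refine prod_congr rfl fun i hi => ?_
    have a := (mem_filter.1 hf).1
    have hi := mem_range.1 hi
    have := c0 f a i (by omega)
    have := c0 f a (i + 1) (by omega)
    have := (mem_PP.1 a).2.1 i (i + 1) (by omega) (by omega)
    split_ifs <;> first | rfl | omega

lemma SA_symm (x y : R) (n : ℕ) : SA x y n = SA y x n := by
  simpa [SA] using co_sum x y n (fun _ => True) (fun _ => True) fun _ _ _ => Iff.rfl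

lemma SA_succ (x y : R) (n : ℕ) : SA x y (n + 1) = SP x y (n + 1) + SP y x (n + 1) := by
  rw [← sub_eq_iff_eq_add', ← SI_eq, SP, ← co_sum x y (n + 1) (fun f => ∃ k, ACut f (n + 2) k), SI]
  · refine sum_congr (filter_congr fun f hf => and_congr_right fun ha => ⟨fun g => ?_, ?_⟩) fun _ _ => rfl
    · exact (struct f n (mem_PP.1 hf).2.1 ha).resolve_left g
    · rintro ⟨k, a1, a2, a3⟩ ⟨l, b1, b2, b3⟩
      exact lt_asymm (a3 0 (n + 1) a1 (by omega) (by omega)) (b3 0 (n + 1) b1 (by omega) (by omega))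
  · intro f g h
    refine exists_congr fun k => and_congr_right fun _ => and_congr_right fun _ => forall₂_congr fun i j => ?_
    refine forall₃_congr fun a b c => ?_
    have := h i (by omega); have := h j c
    omega

lemma SP_zero (x y : R) : SP x y 0 = 0 :=
  sum_eq_zero fun f hf => by
    obtain ⟨k, a, b, _⟩ := (mem_filter.1 hf).2.2
    omega

lemma SA_zero (x y : R) : SA x y 0 = 1 := by
  rw [SA, filter_true_of_mem fun f _ i j k l a b c d => by omega]
  simp [wt, PP]

lemma SP_succ (x y : R) (n : ℕ) :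
    SP x y (n + 1) = ∑ p ∈ antidiagonal n, x * (SI x y p.1 * SA x y p.2) := by
  have e0 : ∀ p : ℕ × ℕ, x * (SI x y p.1 * SA x y p.2) = ∑ z ∈ (PP (p.1 + 1)).filter
      (fun f => Av f (p.1 + 1) ∧ ¬∃ k, Cut f (p.1 + 1) k) ×ˢ (PP (p.2 + 1)).filter (Av · (p.2 + 1)),
      x * (wt x y z.1 p.1 * wt x y z.2 p.2) := fun p => by
    rw [← mul_sum, SI, SA, sum_mul_sum, sum_product]
  rw [sum_congr rfl fun p _ => e0 p, sum_sigma', SP]
  clear e0
  symm
  refine sum_bij (fun z _ => fun i => if i < z.1.1 + 1 then z.2.1 i else if i < n + 2 then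
    z.1.1 + 1 + z.2.2 (i - (z.1.1 + 1)) else 0) ?_ ?_ ?_ ?_
  · rintro ⟨⟨k, m⟩, σ, τ⟩ hz
    simp only [mem_sigma, HasAntidiagonal.mem_antidiagonal, mem_product, mem_filter, mem_PP] at hz ⊢
    obtain ⟨e, ⟨⟨a1, a2, _⟩, a4, _⟩, ⟨b1, b2, _⟩, b4⟩ := hz
    refine ⟨⟨fun i hi => ?_, fun i j hi hj => ?_, fun i hi => by rw [if_neg (by omega), if_neg (by omega)]⟩,
      fun i j p q c1 c2 c3 c4 => ?_, k + 1, by omega, by omega, fun i j c1 c2 c3 => ?_⟩
    · have := a1 i; have := b1 (i - (k + 1))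
      beta_reduce
      split_ifs <;> omega
    · have := a1 i; have := a1 j; have := a2 i j; have := b2 (i - (k + 1)) (j - (k + 1))
      beta_reduce
      split_ifs <;> omega
    · have := a1 i; have := a1 j; have := a1 p; have := a1 q
      have := a4 i j p q c1 c2 c3
      have := b4 (i - (k + 1)) (j - (k + 1)) (p - (k + 1)) (q - (k + 1))
      beta_reduce
      split_ifs <;> omega
    · have := a1 i
      beta_reduce
      split_ifs <;> omega
  · rintro ⟨⟨k, m⟩, σ, τ⟩ hz ⟨⟨k', m'⟩, σ', τ'⟩ hz' he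
    simp only [mem_sigma, HasAntidiagonal.mem_antidiagonal, mem_product, mem_filter, mem_PP] at hz hz' he
    obtain ⟨e, ⟨⟨a1, _, a3⟩, _, a5⟩, ⟨_, _, b3⟩, _⟩ := hz
    obtain ⟨e', ⟨⟨a1', _, a3'⟩, _, a5'⟩, ⟨_, _, b3'⟩, _⟩ := hz'
    have he := congrFun he
    obtain rfl : k = k' := by
      rcases lt_trichotomy k k' with g | g | g
      · refine absurd ⟨k + 1, by omega, by omega, fun i j c1 c2 c3 => ?_⟩ a5'
        have := he i; have := he j; have := a1 i
        beta_reduce at *
        split_ifs at * <;> omega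
      · exact g
      · refine absurd ⟨k' + 1, by omega, by omega, fun i j c1 c2 c3 => ?_⟩ a5
        have := he i; have := he j; have := a1' i
        beta_reduce at *
        split_ifs at * <;> omega
    obtain rfl : m = m' := by omega
    obtain rfl : σ = σ' := funext fun i => by
      have := he i; have := a3 i; have := a3' i
      beta_reduce at *
      split_ifs at * <;> omega
    obtain rfl : τ = τ' := funext fun i => by
      have := he (i + (k + 1)); have := b3 i; have := b3' i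
      rw [Nat.add_sub_cancel] at *
      beta_reduce at *
      split_ifs at * <;> omega
    rfl
  · intro f hf
    obtain ⟨hf, ha, hc⟩ := mem_filter.1 hf
    have s1 := Nat.find_spec hc
    have s2 := fun m => Nat.find_min hc (m := m)
    obtain ⟨v1, v2⟩ := cut_val hf s1
    obtain ⟨k, hk⟩ : ∃ k, Nat.find hc = k + 1 := ⟨Nat.find hc - 1, by have := s1.1; omega⟩
    rw [hk] at s1 s2 v1 v2
    obtain ⟨f1, f2, f3⟩ := mem_PP.1 hf
    obtain ⟨_, t1, t2⟩ := s1
    refine ⟨⟨(k, n - k), fun i => if i < k + 1 then f i else 0,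
      fun i => if i < n - k + 1 then f (i + (k + 1)) - (k + 1) else 0⟩, ?_, funext fun i => ?_⟩
    · simp only [mem_sigma, HasAntidiagonal.mem_antidiagonal, mem_product, mem_filter, mem_PP]
      refine ⟨by omega, ⟨⟨fun i hi => by rw [if_pos hi]; exact v1 i hi, fun i j hi hj => ?_,
        fun i hi => if_neg (by omega)⟩, fun i j p q c1 c2 c3 c4 => ?_, ?_⟩,
        ⟨fun i hi => ?_, fun i j hi hj => ?_, fun i hi => if_neg (by omega)⟩, fun i j p q c1 c2 c3 c4 => ?_⟩
      · have := f2 i j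
        beta_reduce
        split_ifs <;> omega
      · have := ha i j p q c1 c2 c3
        beta_reduce
        split_ifs <;> omega
      · rintro ⟨l, c1, c2, c3⟩
        refine s2 l c2 ⟨c1, by omega, fun i j d1 d2 d3 => ?_⟩
        have := c3 i j d1 d2
        have := t2 i j
        beta_reduce at *
        split_ifs at * <;> omega
      · have := f1 (i + (k + 1))
        beta_reduce
        split_ifs <;> omega
      · have := f2 (i + (k + 1)) (j + (k + 1)); have := v2 (i + (k + 1)); have := v2 (j + (k + 1))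
        beta_reduce
        split_ifs <;> omega
      · have := ha (i + (k + 1)) (j + (k + 1)) (p + (k + 1)) (q + (k + 1))
        have := v2 (i + (k + 1)); have := v2 (j + (k + 1)); have := v2 (p + (k + 1)); have := v2 (q + (k + 1))
        beta_reduce
        split_ifs <;> omega
    · have := v2 i; have := f3 i
      by_cases g : i < k + 1
      · simp only [g, if_true]
      · simp only [g, if_false, show i - (k + 1) + (k + 1) = i by omega]
        beta_reduce
        split_ifs <;> omega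
  · rintro ⟨⟨k, m⟩, σ, τ⟩ hz
    simp only [mem_sigma, HasAntidiagonal.mem_antidiagonal, mem_product, mem_filter, mem_PP] at hz ⊢
    obtain ⟨rfl, ⟨⟨a1, _, _⟩, _, _⟩, _⟩ := hz
    rw [wt, wt, wt, show k + m + 1 = k + 1 + m by omega, prod_range_add, prod_range_succ, ← mul_assoc, mul_comm x]
    refine congrArg₂ _ (congrArg₂ _ (prod_congr rfl fun i hi => ?_) ?_) (prod_congr rfl fun i hi => ?_)
    · have := mem_range.1 hi
      rw [if_pos (show i + 1 < k + 1 by omega), if_pos (show i < k + 1 by omega)]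
    · have := a1 k
      rw [if_neg]
      beta_reduce
      split_ifs <;> omega
    · have := mem_range.1 hi
      refine if_congr ?_ rfl rfl
      rw [show k + 1 + i + 1 - (k + 1) = i + 1 by omega, show k + 1 + i - (k + 1) = i by omega]
      beta_reduce
      split_ifs <;> omega

open PowerSeries

theorem cubic (x y : R) : ∃ S : R⟦X⟧, (∀ n, coeff (n + 1) S = SA x y n) ∧ coeff 0 S = 0 ∧
    S = X * (1 + C (x + y) * S + C (x * y) * S ^ 2) + C (x * y) * S ^ 3 := by
  have h1 : ∀ x y : R, (PowerSeries.mk (SP x y) : R⟦X⟧) =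
      X * (C x * ((PowerSeries.mk (SA x y) - PowerSeries.mk (SP x y)) * PowerSeries.mk (SA x y))) := by
    intro x y
    ext n
    rcases n with _ | n
    · simp [SP_zero]
    · rw [coeff_succ_X_mul, coeff_mk, coeff_C_mul, coeff_mul, SP_succ, mul_sum]
      simp only [map_sub, coeff_mk, SI_eq]
  have h2 : (PowerSeries.mk (SA x y) : R⟦X⟧) = 1 + PowerSeries.mk (SP x y) + PowerSeries.mk (SP y x) := by
    ext n
    rcases n with _ | n
    · simp [SP_zero, SA_zero]
    · simp [SA_succ, coeff_one]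
  have h3 := h1 x y
  have h4 := h1 y x
  rw [show SA y x = SA x y from funext fun n => SA_symm y x n] at h4
  refine ⟨X * PowerSeries.mk (SA x y), fun n => by rw [coeff_succ_X_mul, coeff_mk], by simp, ?_⟩
  rw [map_add, map_mul]
  generalize (PowerSeries.mk (SA x y) : R⟦X⟧) = A at *
  linear_combination (X * (1 + C x * (X * A)) * (1 + C y * (X * A))) * h2 + X * (1 + C y * (X * A)) * h3 +
    X * (1 + C x * (X * A)) * h4

end Pool.Agent.H.MP_f98a08_co
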