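import Mathlib

set_option autoImplicit false

namespace Pool.Agent.H.MP_f98a08_co

open Finset PowerSeries

noncomputable def cc (n r k : ℕ) : ℚ := coeff k ((1 + X) ^ r * (PowerSeries.mk 1 : ℚ⟦X⟧) ^ n)

lemma G_eq : (PowerSeries.mk 1 : ℚ⟦X⟧) = 1 + X * PowerSeries.mk 1 := by
  have := mk_one_mul_one_sub_eq_one ℚ
  linear_combination this

lemma cc_zero (n r : ℕ) : cc n r 0 = 1 := by
  rw [cc, coeff_zero_eq_constantCoeff_apply, map_mul, map_pow, map_pow, ← coeff_zero_eq_constantCoeff_apply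
    (PowerSeries.mk 1)]
  simp

lemma R1 (n r k : ℕ) : cc n (r + 1) (k + 1) = cc n r (k + 1) + cc n r k := by
  rw [cc, cc, cc, ← coeff_succ_X_mul k, ← map_add]
  congr 1; ring

lemma R2 (n r k : ℕ) : cc (n + 1) r (k + 1) = cc n r (k + 1) + cc (n + 1) r k := by
  rw [cc, cc, cc, ← coeff_succ_X_mul k, ← map_add]
  congr 1
  linear_combination ((1 + X) ^ r * (PowerSeries.mk 1 : ℚ⟦X⟧) ^ n) * G_eq

lemma cc_00 (k : ℕ) : cc 0 0 (k + 1) = 0 := by simp [cc, coeff_one]

lemma cc_nonneg (n r k : ℕ) : 0 ≤ cc n r k := by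
  induction n generalizing k with
  | zero =>
    induction r generalizing k with
    | zero => rcases k with _ | k <;> simp [cc_zero, cc_00]
    | succ r ih =>
      rcases k with _ | k
      · simp [cc_zero]
      · rw [R1]; exact add_nonneg (ih _) (ih _)
  | succ n ih =>
    induction k with
    | zero => simp [cc_zero]
    | succ k ih2 => rw [R2]; exact add_nonneg (ih _) ih2

lemma R3 (n r k : ℕ) : ((k : ℚ) + 1) * cc n (r + 1) (k + 1) = (r + 1) * cc n r k + n * cc (n + 1) (r + 1) k := by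
  have hG : derivative ℚ (PowerSeries.mk 1 : ℚ⟦X⟧) = PowerSeries.mk 1 * PowerSeries.mk 1 := by
    have h := congrArg (derivative ℚ) G_eq
    rw [map_add, Derivation.leibniz, derivative_X, Derivation.map_one_eq_zero] at h
    simp only [smul_eq_mul] at h
    linear_combination (PowerSeries.mk 1 : ℚ⟦X⟧) * h - derivative ℚ (PowerSeries.mk 1 : ℚ⟦X⟧) * G_eq
  have h : derivative ℚ ((1 + X) ^ (r + 1) * (PowerSeries.mk 1 : ℚ⟦X⟧) ^ n) =
      C ((r : ℚ) + 1) * ((1 + X) ^ r * PowerSeries.mk 1 ^ n) + C (n : ℚ) * ((1 + X) ^ (r + 1) * PowerSeries.mk 1 ^ (n + 1)) := by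
    rw [Derivation.leibniz, Derivation.leibniz_pow, Derivation.leibniz_pow, map_add, derivative_X,
      Derivation.map_one_eq_zero, hG, map_add, map_natCast, map_natCast, map_one]
    rcases n with _ | n <;> simp only [smul_eq_mul, nsmul_eq_mul, Nat.add_sub_cancel] <;> push_cast <;> ring
  have := congrArg (coeff k) h
  rw [coeff_derivative, map_add, coeff_C_mul, coeff_C_mul] at this
  simp only [cc]
  linear_combination this

def T : ℕ → ℕ → ℕ → ℚ
  | 0, m, k => if m = 0 ∧ k = 0 then 1 else 0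
  | _ + 1, 0, _ => 0
  | n + 1, m + 1, 0 => T n m 0 + T n (m + 1) 0
  | n + 1, m + 1, k + 1 => T n m (k + 1) + T n (m + 1) (k + 1) + T n (m + 2) k + T (n + 1) (m + 3) k

lemma T_eq (n : ℕ) : ∀ k m, n * T n m k = m * (n.choose (m + 2 * k)) * cc n (m + 2 * k) k := by
  induction n with
  | zero =>
    intro k m
    rcases m with _ | m
    · simp
    · rw [Nat.choose_eq_zero_of_lt (by omega)]; simp
  | succ n ih =>
    intro k
    induction k with
    | zero =>
      intro m
      rcases m with _ | m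
      · simp [T]
      rcases Nat.eq_zero_or_pos n with rfl | hn
      · rcases m with _ | m
        · simp [T, cc_zero]
        · rw [Nat.choose_eq_zero_of_lt (by omega)]; simp [T]
      refine mul_left_cancel₀ (show (n : ℚ) ≠ 0 by positivity) ?_
      have a1 := ih 0 m
      have a2 := ih 0 (m + 1)
      have a3 := congrArg (Nat.cast : ℕ → ℚ) (Nat.add_one_mul_choose_eq n m)
      have a4 := congrArg (Nat.cast : ℕ → ℚ) (Nat.choose_succ_succ' n m)
      simp only [T, cc_zero, mul_zero, add_zero, mul_one] at *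
      push_cast at *
      linear_combination (n + 1) * a1 + (n + 1) * a2 - a3 - (n + 1) * (m + 1) * a4
    | succ k ih2 =>
      intro m
      rcases m with _ | m
      · simp [T]
      have a0 := ih2 (m + 3)
      rcases Nat.eq_zero_or_pos n with rfl | hn
      · rw [Nat.choose_eq_zero_of_lt (by omega)] at a0 ⊢
        simpa [T] using a0
      refine mul_left_cancel₀ (show (n : ℚ) * (m + 2 * k + 3) ≠ 0 by positivity) ?_
      have a1 := ih (k + 1) m
      have a2 := ih (k + 1) (m + 1)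
      have a5 := ih k (m + 2)
      have a3 := congrArg (Nat.cast : ℕ → ℚ) (Nat.add_one_mul_choose_eq n (m + 2 * k + 2))
      have a4 := congrArg (Nat.cast : ℕ → ℚ) (Nat.choose_succ_succ' n (m + 2 * k + 2))
      have b1 := R1 n (m + 2 * k + 2) k
      have b2 := R2 n (m + 2 * k + 2 + 1) k
      have b3 := R3 n (m + 2 * k + 2) k
      rw [show m + 3 + 2 * k = m + 2 * k + 2 + 1 by omega] at a0
      rw [show m + 2 * (k + 1) = m + 2 * k + 2 by omega] at a1
      rw [show m + 1 + 2 * (k + 1) = m + 2 * k + 2 + 1 by omega] at a2 ⊢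
      rw [show m + 2 + 2 * k = m + 2 * k + 2 by omega] at a5
      rw [T, b2, b1]
      rw [b1] at a2 b3
      push_cast at *
      generalize (n.choose (m + 2 * k + 2) : ℚ) = B at *
      generalize (n.choose (m + 2 * k + 2 + 1) : ℚ) = B1 at *
      generalize ((n + 1).choose (m + 2 * k + 2 + 1) : ℚ) = B2 at *
      generalize cc n (m + 2 * k + 2) (k + 1) = a at *
      generalize cc n (m + 2 * k + 2) k = b at *
      generalize cc (n + 1) (m + 2 * k + 2 + 1) k = d at *
      linear_combination ((n + 1) * (m + 2 * k + 3)) * (a1 + a2 + a5) + (n * (m + 2 * k + 3)) * a0 -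
        ((n + 1) * (m + 2 * k + 3) * (m + 1) * (a + b)) * a4 -
        (((m : ℚ) + 1) * (a + b) + 2 * n * d) * a3 - (2 * (n + 1) * B) * b3

lemma T_zero {n m k : ℕ} (h : n < m + 2 * k) : T n m k = 0 := by
  rcases n with _ | n
  · rw [T, if_neg (by omega)]
  · have := T_eq (n + 1) k m
    rw [Nat.choose_eq_zero_of_lt h] at this
    simpa [Nat.cast_add_one_ne_zero] using this

lemma T_nonneg (n m k : ℕ) : 0 ≤ T n m k := by
  rcases n with _ | n
  · rw [T]; positivity
  · have := T_eq (n + 1) k m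
    have := cc_nonneg (n + 1) (m + 2 * k) k
    refine nonneg_of_mul_nonneg_right ?_ (show (0 : ℚ) < (n + 1 : ℕ) by positivity)
    rw [T_eq]; positivity

lemma expand {u w : ℚ} {S : ℚ⟦X⟧} (h0 : coeff 0 S = 0)
    (h : S = X * (1 + C u * S + C w * S ^ 2) + C w * S ^ 3) (n : ℕ) :
    ∀ m, coeff n (S ^ m) = ∑ k ∈ range (n + 1), T n m k * (w ^ k * u ^ (n - m - 2 * k)) := by
  obtain ⟨A, hA⟩ : X ∣ S := X_dvd_iff.2 (by simpa using h0)
  induction n with
  | zero =>
    intro m
    rcases m with _ | m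
    · simp [T]
    · simp [T, hA]
  | succ n ih =>
    have key : ∀ d m, n + 1 < m + d → coeff (n + 1) (S ^ m) =
        ∑ k ∈ range (n + 1 + 1), T (n + 1) m k * (w ^ k * u ^ (n + 1 - m - 2 * k)) := by
      intro d
      induction d with
      | zero =>
        intro m hm
        rw [sum_eq_zero fun k _ => by rw [T_zero (by omega), zero_mul], hA, mul_pow, coeff_X_pow_mul',
          if_neg (by omega)]
      | succ d ih2 =>
        intro m hm
        rcases m with _ | m
        · simp [T, coeff_one]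
        have e : S ^ (m + 1) = X * (S ^ m + C u * S ^ (m + 1) + C w * S ^ (m + 2)) + C w * S ^ (m + 3) := by
          linear_combination S ^ m * h
        rw [e, map_add, coeff_succ_X_mul, map_add, map_add, coeff_C_mul, coeff_C_mul, coeff_C_mul, ih, ih, ih,
          ih2 (m + 3) (by omega), sum_range_succ' (fun k => T (n + 1) (m + 1) k * _),
          sum_range_succ (fun k => T (n + 1) (m + 3) k * _), T_zero (k := n + 1) (by omega),
          sum_range_succ' (fun k => T n m k * _), sum_range_succ' (fun k => T n (m + 1) k * _)]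
        simp only [T, add_mul, sum_add_distrib, mul_add _ (∑ i ∈ _, _), mul_sum]
        rw [sum_range_succ (fun k => T n m (k + 1) * _), sum_range_succ (fun k => T n (m + 1) (k + 1) * _),
          T_zero (k := n + 1) (by omega), T_zero (k := n + 1) (by omega)]
        have e1 : ∀ k, u * (T n (m + 1) k * (w ^ k * u ^ (n - (m + 1) - 2 * k))) =
            T n (m + 1) k * (w ^ k * u ^ (n + 1 - (m + 1) - 2 * k)) := fun k => by
          rcases lt_or_ge n (m + 1 + 2 * k) with g | g
          · rw [T_zero g]; simp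
          · rw [show n + 1 - (m + 1) - 2 * k = n - (m + 1) - 2 * k + 1 by omega]; ring
        have e2 : ∀ k, w * (T n (m + 2) k * (w ^ k * u ^ (n - (m + 2) - 2 * k))) =
            T n (m + 2) k * (w ^ (k + 1) * u ^ (n + 1 - (m + 1) - 2 * (k + 1))) := fun k => by
          rw [show n + 1 - (m + 1) - 2 * (k + 1) = n - (m + 2) - 2 * k by omega]; ring
        have e3 : ∀ k, w * (T (n + 1) (m + 3) k * (w ^ k * u ^ (n + 1 - (m + 3) - 2 * k))) =
            T (n + 1) (m + 3) k * (w ^ (k + 1) * u ^ (n + 1 - (m + 1) - 2 * (k + 1))) := fun k => by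
          rw [show n + 1 - (m + 1) - 2 * (k + 1) = n + 1 - (m + 3) - 2 * k by omega]; ring
        simp only [e1, e2, e3]
        simp only [show ∀ k, n + 1 - (m + 1) - k = n - m - k from fun k => by omega]
        ring
    exact fun m => key (n + 2) m (by omega)

lemma T_one (n : ℕ) : T (n + 1) 1 0 = 1 := by
  have := T_eq (n + 1) 0 1
  simpa [cc_zero, Nat.cast_add_one_ne_zero] using this

lemma cc_one (n r : ℕ) : cc n (r + 1) 1 = n + r + 1 := by
  have := R3 n r 0
  simp only [cc_zero] at this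
  push_cast at this
  linear_combination this

lemma B1 (n r k : ℕ) : n * cc (n + 1) (r + 1) k ≤ (n + k) * cc n (r + 1) k := by
  rcases k with _ | k
  · simp [cc_zero]
  have a1 := R3 n r k
  have a2 := R2 n (r + 1) k
  have a3 : 0 ≤ ((r : ℚ) + 1) * cc n r k := mul_nonneg (by positivity) (cc_nonneg _ _ _)
  rw [a2]
  push_cast
  linarith

lemma ineq_c (d k : ℕ) : ((2 * k + 2 + d : ℕ) : ℚ) * ((2 * k + 2 + d : ℕ) + 1) * cc (2 * k + 2 + d + 1) (2 * k + 3) (k + 1) ≤
    ((k + 2) ^ 2 + (2 * k + 2 + d : ℕ)) * d * cc (2 * k + 2 + d) (2 * k + 3) (k + 1) +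
      (2 * k + 2) * (2 * k + 3) * ((2 * k + 2 + d : ℕ) + 4 + 2 * k) * cc (2 * k + 2 + d) (2 * k + 1) k := by
  rcases k with _ | k
  · simp only [cc_zero, mul_zero, zero_add, show (3 : ℕ) = 2 + 1 from rfl, cc_one]
    push_cast
    exact le_of_eq (by ring)
  generalize hn : 2 * (k + 1) + 2 + d = n
  have hn' : (n : ℚ) = 2 * k + 4 + d := by rw [← hn]; push_cast; ring
  have a1 := B1 n (2 * (k + 1) + 2) (k + 1 + 1)
  have a2 := R1 n (2 * (k + 1) + 2) (k + 1)
  have a3 := R1 n (2 * (k + 1) + 1) (k + 1)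
  have a4 := R1 n (2 * (k + 1) + 1) k
  have a5 := R3 n (2 * (k + 1)) (k + 1)
  have a6 := B1 n (2 * (k + 1)) (k + 1)
  have a7 := R1 n (2 * (k + 1)) k
  have a8 := R3 n (2 * (k + 1)) k
  have a9 : cc n (2 * (k + 1) + 1) k ≤ cc (n + 1) (2 * (k + 1) + 1) k := by
    rcases k with _ | k
    · simp [cc_zero]
    · rw [R2]; exact le_add_of_nonneg_right (cc_nonneg _ _ _)
  have p1 := cc_nonneg n (2 * (k + 1)) k
  have p2 := cc_nonneg n (2 * (k + 1) + 1) k
  have p3 := cc_nonneg n (2 * (k + 1) + 1) (k + 1)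
  have p4 := cc_nonneg n (2 * (k + 1) + 3) (k + 1 + 1)
  rw [show 2 * (k + 1) + 2 + 1 = 2 * (k + 1) + 3 from rfl] at a1 a2
  rw [show 2 * (k + 1) + 1 + 1 = 2 * (k + 1) + 2 from rfl] at a3 a4
  push_cast at *
  generalize cc (n + 1) (2 * (k + 1) + 3) (k + 1 + 1) = c' at *
  generalize cc n (2 * (k + 1) + 3) (k + 1 + 1) = c at *
  generalize cc n (2 * (k + 1) + 1) (k + 1) = f1 at *
  generalize cc n (2 * (k + 1) + 1) k = f0 at *
  generalize cc n (2 * (k + 1) + 1) (k + 1 + 1) = f2 at *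
  have hk : (0 : ℚ) ≤ k := by positivity
  have hd : (0 : ℚ) ≤ d := by positivity
  have b1 : (k + 2) * f2 ≤ (n + 3 * k + 4) * f1 := by nlinarith
  have b2 : n * f0 ≤ (k + 1) * f1 := by nlinarith
  have b3 : 2 * f0 ≤ f1 := by
    by_contra g
    nlinarith
  have b4 : 2 * (k + 2) * c ≤ (2 * n + 11 * k + 18) * f1 := by nlinarith
  have b5 : (6 * k + 15 - (k + 1) * d) * ((k + 2) * c) ≤ (2 * k + 4) * (2 * k + 5) * (n + 6 + 2 * k) * f1 := by
    rcases le_total (6 * k + 15 - (k + 1) * d : ℚ) 0 with g | g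
    · exact (mul_nonpos_of_nonpos_of_nonneg g (by positivity)).trans (by rw [hn']; positivity)
    · have c1 := mul_le_mul_of_nonneg_left b4 g
      have c2 : (6 * k + 15 - (k + 1) * d) * (2 * n + 11 * k + 18) ≤
          2 * ((2 * k + 4) * (2 * k + 5) * (n + 6 + 2 * k) : ℚ) := by
        rw [hn']
        nlinarith [mul_nonneg hk hd, mul_nonneg hk hk, mul_nonneg (mul_nonneg hk hk) hk,
          mul_nonneg (mul_nonneg hk hk) hd, mul_nonneg hd hd, mul_nonneg (mul_nonneg hk hd) hd,
          mul_nonneg (mul_nonneg hk hk) (mul_nonneg hk hk), mul_nonneg (mul_nonneg hk hk) (mul_nonneg hk hd)]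
      have c3 := mul_le_mul_of_nonneg_right c2 p3
      linarith
  have b6 := mul_le_mul_of_nonneg_left a1 (show (0 : ℚ) ≤ n + 1 by positivity)
  rw [hn'] at *
  linarith

lemma ineq (n k : ℕ) (h : 2 * k + 2 ≤ n) : ((n : ℚ) + 1) * T (n + 1) 1 (k + 1) ≤
    ((k + 2) ^ 2 + n) * T n 1 (k + 1) + (n - 1 - 2 * k) * (n + 4 + 2 * k) * T n 1 k := by
  obtain ⟨d, rfl⟩ := Nat.exists_eq_add_of_le h
  have a0 := ineq_c d k
  generalize hn : 2 * k + 2 + d = n at *
  have hn' : (n : ℚ) = 2 * k + 2 + d := by rw [← hn]; push_cast; ring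
  have a1 := T_eq (n + 1) (k + 1) 1
  have a2 := T_eq n (k + 1) 1
  have a3 := T_eq n k 1
  rw [show 1 + 2 * (k + 1) = 2 * k + 3 by omega] at a1 a2
  rw [show 1 + 2 * k = 2 * k + 1 by omega] at a3
  have b1 := congrArg (Nat.cast : ℕ → ℚ) (Nat.choose_mul_succ_eq n (2 * k + 3))
  have b2 := congrArg (Nat.cast : ℕ → ℚ) (Nat.add_one_mul_choose_eq n (2 * k + 2))
  have b3 := congrArg (Nat.cast : ℕ → ℚ) (Nat.choose_succ_right_eq n (2 * k + 1))
  rw [show n + 1 - (2 * k + 3) = d by omega] at b1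
  rw [show n - (2 * k + 1) = d + 1 by omega] at b3
  rw [show 2 * k + 2 + 1 = 2 * k + 3 from rfl] at b2
  rw [show 2 * k + 1 + 1 = 2 * k + 2 from rfl] at b3
  push_cast at a1 a2 a3 b1 b2 b3
  have p : (0 : ℚ) ≤ (n + 1).choose (2 * k + 3) := by positivity
  have c := mul_le_mul_of_nonneg_left a0 p
  refine le_of_mul_le_mul_left ?_ (show (0 : ℚ) < n * (n + 1) by rw [hn']; positivity)
  have e : (n : ℚ) - 1 - 2 * k = d + 1 := by rw [hn']; ring
  rw [e]
  refine le_of_eq_of_le ?_ (le_of_le_of_eq c ?_)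
  · linear_combination (n * (n + 1) : ℚ) * a1
  · linear_combination (-(n + 1) * ((k + 2) ^ 2 + n) : ℚ) * a2 - ((n + 1) * (d + 1) * (n + 4 + 2 * k) : ℚ) * a3 -
      (((k + 2) ^ 2 + n) * cc n (2 * k + 3) (k + 1)) * b1 -
      ((2 * k + 2) * (n + 4 + 2 * k) * cc n (2 * k + 1) k) * b2 +
      ((n + 1) * (n + 4 + 2 * k) * cc n (2 * k + 1) k) * b3

end Pool.Agent.H.MP_f98a08_co
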