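import Pool.Agent.H.MP_436b38_co.C
import Pool.Agent.H.MP_f98a08_co.A
import Pool.Agent.H.MP_f98a08_co.B

set_option autoImplicit false

namespace Pool.Agent.H.MP_f98a08_co

open Finset Equiv Classical
open Pool.Agent.H.MP_436b38_co

section
variable {A : Type*} [CommRing A] [Algebra ℚ A] {θs θt : A →ₗ[ℚ] A} {s t : A}

noncomputable def HH (s t : A) (n : ℕ) : A := ∑ k ∈ range (n + 1), T (n + 1) 1 k • Bs s t (k + 1) 0 (n - 2 * k)

lemma op_sum (N : ℕ) (c : ℤ) (K : ℕ) (F : ℕ → A) :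
    op θs θt s t N c (∑ k ∈ range K, F k) = ∑ k ∈ range K, op θs θt s t N c (F k) := by
  induction K with
  | zero => simpa using op_smul (θs := θs) (θt := θt) (s := s) (t := t) N c 0 0
  | succ K ih => rw [sum_range_succ, sum_range_succ, op_add, ih]

lemma op_HH (hs : Leib θs) (ht : Leib θt) (h1 : θs s = s) (h2 : θs t = 0) (h3 : θt t = t) (h4 : θt s = 0) (n : ℕ) :
    op θs θt s t (n + 2) (n + 1 : ℕ) (HH s t n) - ((n : ℚ) + 2) • HH s t (n + 1) ∈ cone s t (n + 3) 1 (n + 2) := by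
  have e1 : ∀ k, op θs θt s t (n + 2) (n + 1 : ℕ) (T (n + 1) 1 k • Bs s t (k + 1) 0 (n - 2 * k)) -
      ((((k : ℚ) + 1) ^ 2 + (n + 1)) * T (n + 1) 1 k) • Bs s t (k + 1) 0 (n + 1 - 2 * k) -
      (((n : ℚ) - 2 * k) * (n + 5 + 2 * k) * T (n + 1) 1 k) • Bs s t (k + 1 + 1) 0 (n + 1 - 2 * (k + 1)) ∈
      cone s t (n + 3) 1 (n + 2) := by
    intro k
    rcases lt_or_ge n (2 * k) with g | g
    · rw [T_zero (by omega), op_smul]
      simp
    obtain ⟨l, rfl⟩ := Nat.exists_eq_add_of_le g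
    have hT := T_nonneg (2 * k + l + 1) 1 k
    generalize T (2 * k + l + 1) 1 k = r at *
    rw [op_smul, show 2 * k + l - 2 * k = l by omega, show 2 * k + l + 2 = 2 * (k + 1) + 0 + l by omega,
      op_B hs ht h1 h2 h3 h4, show 2 * k + l + 1 - 2 * k = l + 1 by omega,
      show 2 * k + l + 1 - 2 * (k + 1) = l - 1 by omega]
    have a1 := mem_cone (s := s) (t := t) (N := 2 * k + l + 3) (a := 1) (b := 2 * (k + 1) + 0 + l) (i := k) (j := 0 + 1)
      (l := l) (m := (k + 1) * (k + 1 + l) - (2 * k + l + 1 : ℕ)) hT (by push_cast; nlinarith)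
      (fun g => ⟨by omega, by nlinarith, by
        have : (0 : ℤ) ≤ (k + 1) * (k + 1 + l) - (2 * k + l + 1 : ℕ) := by push_cast; nlinarith
        zify at *; omega⟩)
    have a2 := mem_cone (s := s) (t := t) (N := 2 * k + l + 3) (a := 1) (b := 2 * (k + 1) + 0 + l) (i := k + 1) (j := 0 + 1)
      (l := l - 2) (m := l * (l - 1)) hT (by rcases l with _ | l <;> simp) (fun g => by
        rcases l with _ | _ | l
        · simp at g
        · simp at g
        · rw [show l + 1 + 1 - 2 = l by omega]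
          exact ⟨by omega, by nlinarith, by nlinarith⟩)
    convert add_mem a1 a2 using 1
    simp only [Algebra.smul_def]
    push_cast
    simp only [map_ofNat]
    ring
  have e2 := sum_mem (t := range (n + 1)) fun k _ => e1 k
  have e3 : ∑ k ∈ range (n + 1), ((((k : ℚ) + 2) ^ 2 + (n + 1)) * T (n + 1) 1 (k + 1) +
      ((n : ℚ) - 2 * k) * (n + 5 + 2 * k) * T (n + 1) 1 k - (n + 2) * T (n + 2) 1 (k + 1)) •
      Bs s t (k + 1 + 1) 0 (n + 1 - 2 * (k + 1)) ∈ cone s t (n + 3) 1 (n + 2) := by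
    refine sum_mem fun k _ => ?_
    rcases lt_or_ge n (2 * k + 1) with g | g
    · rw [T_zero (k := k + 1) (by omega), T_zero (k := k + 1) (by omega)]
      rcases lt_or_ge n (2 * k) with g1 | g1
      · rw [T_zero (by omega)]; simp
      · rw [show n = 2 * k by omega]; simp
    · have a1 := ineq (n + 1) k (by omega)
      refine AddSubmonoid.subset_closure ⟨_, k + 1, 0, _, ?_, by omega, by nlinarith, ?_, rfl⟩
      · push_cast at a1
        rw [show n + 1 + 1 = n + 2 from rfl] at a1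
        linarith
      · obtain ⟨l, rfl⟩ := Nat.exists_eq_add_of_le g
        rw [show 2 * k + 1 + l + 1 - 2 * (k + 1) = l by omega]
        nlinarith
  convert add_mem e2 e3 using 1
  rw [HH, HH, op_sum, sum_sub_distrib, sum_sub_distrib, sum_range_succ' _ (n + 1),
    sum_range_succ' (fun k => ((((k : ℚ) + 1) ^ 2 + (n + 1)) * T (n + 1) 1 k) • _), T_one, T_one]
  simp only [sub_smul, add_smul ((((_ : ℚ) + 2) ^ 2 + _) * _), sum_sub_distrib, sum_add_distrib, smul_add, smul_sum,
    smul_smul]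
  rw [sum_range_succ (fun k : ℕ => ((((k : ℚ) + 2) ^ 2 + (n + 1)) * T (n + 1) 1 (k + 1)) • _),
    T_zero (k := n + 1) (by omega)]
  simp only [Nat.cast_add, Nat.cast_one, add_assoc (_ : ℚ) 1 1, one_add_one_eq_two, Nat.cast_zero]
  module

def Gd (s t : A) (n : ℕ) (F : A) : Prop := ∃ γ : ℕ → ℕ → ℚ, (∀ i j, 0 ≤ γ i j) ∧
    F = s * t * ∑ i ∈ range (n + 1), ∑ j ∈ range (n + 1 - 2 * i), γ i j • Bs s t i (n - j - 2 * i) j

lemma cone_Gd {n a b : ℕ} {F : A} (hF : F ∈ cone s t (n + 2) a b) : Gd s t n F := by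
  induction hF using AddSubmonoid.closure_induction with
  | zero => exact ⟨fun _ _ => 0, fun _ _ => le_rfl, by simp⟩
  | add x y _ _ hx hy =>
    obtain ⟨γ, h1, rfl⟩ := hx
    obtain ⟨δ, h2, rfl⟩ := hy
    exact ⟨fun i j => γ i j + δ i j, fun i j => add_nonneg (h1 i j) (h2 i j), by
      simp only [add_smul, sum_add_distrib, mul_add]⟩
  | mem x hx =>
    obtain ⟨r, i, j, l, hr, e, _, _, rfl⟩ := hx
    refine ⟨fun i' j' => if i' = i ∧ j' = l then r else 0, fun i' j' => by positivity, ?_⟩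
    rw [sum_eq_single_of_mem i (mem_range.2 (by omega)) (fun i' _ g => by simp [g]),
      sum_eq_single_of_mem l (mem_range.2 (by omega)) (fun j' _ g => by simp [g])]
    simp only [and_self, if_true, show n - l - 2 * i = j by omega, mul_smul_comm, Bs]
    congr 1
    ring

lemma HH_eq (n : ℕ) : HH s t n = s * t * ∑ i ∈ range (n + 1), ∑ j ∈ range (n + 1 - 2 * i),
    (if j = n - 2 * i then T (n + 1) 1 i else 0) • Bs s t i (n - j - 2 * i) j := by
  rw [HH, mul_sum]
  refine sum_congr rfl fun i _ => ?_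
  rcases lt_or_ge n (2 * i) with g | g
  · rw [T_zero (by omega)]; simp
  · rw [sum_eq_single_of_mem (n - 2 * i) (mem_range.2 (by omega)) (fun j' _ g => by simp [g]), if_pos rfl,
      show n - (n - 2 * i) - 2 * i = 0 by omega, mul_smul_comm, Bs, Bs]
    congr 1
    ring

end

open PowerSeries in
lemma claim (n : ℕ) : ∃ R ∈ cone (C X : AA) X (n + 2) 1 (n + 1), GG (n + 1) 1 = (R + HH (C X) X n) * ww ^ (n + 2) := by
  induction n with
  | zero =>
    refine ⟨0, zero_mem _, PowerSeries.ext fun b => PowerSeries.ext fun a => ?_⟩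
    have := co_w 1 1 1 a b le_rfl le_rfl one_pos
    simp only [pow_one] at this
    simp only [HH, zero_add, range_one, sum_singleton, T_one 0, one_smul, Bs, pow_one, pow_zero, mul_one, this, GG,
      coeff_mk, mul_zero, Nat.sub_self]
    simp
  | succ n ih =>
    obtain ⟨R, h1, h2⟩ := ih
    have a1 := op_cone (a' := 1) (b' := n + 2) (c := (n + 1 : ℕ)) ts_leib (th_leib _) ts_s ts_t (th_X _) (th_C _ _)
      (by omega) (by omega) (by omega) (by omega) (Or.inl le_rfl) (Or.inr rfl) h1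
    have a2 := op_HH ts_leib (th_leib _) ts_s ts_t (th_X _) (th_C _ _) n
    refine ⟨_, cone_smul (r := ((n : ℚ) + 2)⁻¹) (by positivity) (add_mem a1 a2), ?_⟩
    have e : ∀ F G : AA, ((n : ℚ) + 2)⁻¹ • (F + (G - ((n : ℚ) + 2) • HH (C X) X (n + 1))) + HH (C X) X (n + 1) =
        ((n : ℚ) + 2)⁻¹ • (F + G) := fun F G => by
      rw [← add_sub_assoc, smul_sub, smul_smul, inv_mul_cancel₀ (by positivity), one_smul, sub_add_cancel]
    rw [e, ← op_add, smul_mul_assoc, ww, ← op_eq ts_leib (th_leib _) ts_s ts_t (th_X _) (th_C _ _) hu hv, ← ww, ← h2,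
      eq_inv_smul_iff₀ (by positivity)]
    refine PowerSeries.ext fun y => PowerSeries.ext fun x => ?_
    rw [← zsmul_eq_mul]
    simp only [GG, map_add, co_ts, co_th, map_nsmul, map_zsmul, coeff_mk, LinearMap.map_smul_of_tower]
    simp only [smul_eq_mul, nsmul_eq_mul, zsmul_eq_mul]
    have := congrArg (Nat.cast : ℕ → ℚ) (Nat.add_one_mul_choose_eq (x * y + n) (n + 1))
    rw [show x * y + (n + 1 + 1) - 1 = x * y + n + 1 by omega, show x * y + (n + 1) - 1 = x * y + n by omega]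
    push_cast at this ⊢
    linear_combination -this

open PowerSeries in
theorem two (n : ℕ) : ∃ γ : ℕ → ℕ → ℚ, (∀ k, T (n + 1) 1 k ≤ γ k (n - 2 * k)) ∧ ∀ s t : ℚ,
    ∑ π : Perm (Fin (n + 1)), s ^ des π⁻¹ * t ^ des π = ∑ i ∈ range (n + 1), ∑ j ∈ range (n + 1 - 2 * i),
      γ i j * (s * t) ^ i * (1 + s * t) ^ j * (s + t) ^ (n - j - 2 * i) := by
  obtain ⟨R, h1, h2⟩ := claim n
  obtain ⟨δ, h3, rfl⟩ := cone_Gd h1
  refine ⟨fun i j => δ i j + if j = n - 2 * i then T (n + 1) 1 i else 0, fun k => by simpa using h3 _ _,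
    fun s t => ?_⟩
  have d1 : des (1 : Perm (Fin (n + 1))) = 0 := by
    rw [des_eq]
    exact sum_eq_zero fun i _ => if_neg (by simp [Fin.lt_def])
  have e1 := FF_w (1 : Perm (Fin (n + 1)))
  rw [d1, h2, HH_eq, ← mul_add] at e1
  have e2 : ww * ((1 - C X) * (1 - X)) = 1 := by rw [ww, mul_mul_mul_comm, hu, hv, one_mul]
  have e3 := congrArg (· * ((1 - C X) * (1 - X)) ^ (n + 2)) e1
  simp only [mul_assoc _ (ww ^ _), ← mul_pow, e2, one_pow, mul_one] at e3
  have hne : (C X * X : AA) ≠ 0 := mul_ne_zero (fun e => X_ne_zero (C_injective (e.trans (map_zero _).symm)))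
    X_ne_zero
  have e0 : ∀ r : ℚ, ph (Polynomial.C (Polynomial.C r)) = algebraMap ℚ AA r := fun r => by
    simp [ph, PowerSeries.algebraMap_apply]
  have e4 : ∑ π : Perm (Fin (n + 1)), (Polynomial.C Polynomial.X : Polynomial (Polynomial ℚ)) ^ des π⁻¹ *
      Polynomial.X ^ des π = ∑ i ∈ range (n + 1), ∑ j ∈ range (n + 1 - 2 * i),
      Polynomial.C (Polynomial.C (δ i j + if j = n - 2 * i then T (n + 1) 1 i else 0)) *
      (Polynomial.C Polynomial.X * Polynomial.X) ^ i * (1 + Polynomial.C Polynomial.X * Polynomial.X) ^ j *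
      (Polynomial.C Polynomial.X + Polynomial.X) ^ (n - j - 2 * i) := by
    refine ph_inj (mul_left_cancel₀ hne ?_)
    simp only [map_sum, map_mul, map_pow, ph_s, ph_t, e0, map_add ph, map_one]
    refine Eq.trans ?_ (e3.trans ?_)
    · rw [FF, mul_sum, ← Equiv.sum_comp (Equiv.inv (Perm (Fin (n + 1))))]
      refine sum_congr rfl fun π _ => ?_
      simp only [Equiv.inv_apply, inv_inv, mul_one]
      ring
    · rw [← sum_add_distrib]
      refine congrArg _ (sum_congr rfl fun i _ => ?_)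
      rw [← sum_add_distrib]
      refine sum_congr rfl fun j _ => ?_
      rw [← add_smul, Algebra.smul_def, Bs]; ring
  have e5 := congrArg (Polynomial.evalEvalRingHom s t) e4
  simpa only [map_sum, map_mul, map_pow, map_add (Polynomial.evalEvalRingHom s t), map_one,
    Polynomial.coe_evalEvalRingHom, Polynomial.evalEval_X, Polynomial.evalEval_C, Polynomial.eval_X,
    Polynomial.eval_C] using e5

theorem one (n : ℕ) (t : ℚ) : SA 1 t n = ∑ k ∈ range (n / 2 + 1), T (n + 1) 1 k * t ^ k * (1 + t) ^ (n - 2 * k) := by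
  obtain ⟨S, h1, h2, h3⟩ := cubic (1 : ℚ) t
  have := expand h2 h3 (n + 1) 1
  rw [pow_one, h1] at this
  rw [this]
  symm
  refine sum_subset_zero_on_sdiff (range_subset_range.2 (by omega)) (fun k hk => ?_) fun k _ => ?_
  · simp only [mem_sdiff, mem_range] at hk
    rw [T_zero (by omega), zero_mul]
  · rw [one_mul, mul_assoc, Nat.add_sub_cancel]

open Polynomial in
lemma uniq (n : ℕ) (d : ℕ → ℚ)
    (h : ∀ t : ℚ, ∑ k ∈ range (n / 2 + 1), d k * (-t ^ 2) ^ k * (1 + -t ^ 2) ^ (n - 2 * k) = 0) :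
    ∀ k ≤ n / 2, d k = 0 := by
  have h1 : ∑ k ∈ range (n / 2 + 1), C (d k) * X ^ k * (1 + X) ^ (n - 2 * k) = 0 := by
    refine eq_zero_of_infinite_isRoot _ (Set.infinite_of_injective_forall_mem (f := fun m : ℕ => -(m : ℚ) ^ 2)
      (fun a b e => ?_) fun m => ?_)
    · have : (a : ℚ) ^ 2 = b ^ 2 := neg_injective e
      exact_mod_cast (pow_left_inj₀ (by positivity) (by positivity) two_ne_zero).1 this
    · simpa [eval_finsetSum] using h m
  intro k
  induction k using Nat.strong_induction_on with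
  | _ k ih =>
    intro hk
    have := congrArg (coeff · k) h1
    simp only [finsetSum_coeff, mul_assoc, coeff_C_mul, coeff_X_pow_mul', coeff_zero] at this
    rw [sum_eq_single_of_mem k (mem_range.2 (by omega))] at this
    · simpa [coeff_zero_eq_eval_zero] using this
    · intro j _ hj
      rcases lt_or_gt_of_ne hj with g | g
      · rw [ih j g (by omega), zero_mul]
      · rw [if_neg (by omega), mul_zero]

lemma slice (n : ℕ) (γ : ℕ → ℕ → ℚ) (t : ℚ) : ∑ i ∈ range (n + 1), ∑ j ∈ range (n + 1 - 2 * i),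
    γ i j * (-t * t) ^ i * (1 + -t * t) ^ j * (-t + t) ^ (n - j - 2 * i) =
    ∑ k ∈ range (n / 2 + 1), γ k (n - 2 * k) * (-t ^ 2) ^ k * (1 + -t ^ 2) ^ (n - 2 * k) := by
  symm
  refine sum_subset_zero_on_sdiff (range_subset_range.2 (by omega)) (fun k hk => ?_) fun k hk => ?_
  · simp only [mem_sdiff, mem_range] at hk
    rw [show n + 1 - 2 * k = 0 by omega, sum_range_zero]
  · rw [mem_range] at hk
    rw [sum_eq_single_of_mem (n - 2 * k) (mem_range.2 (by omega)), show n - (n - 2 * k) - 2 * k = 0 by omega]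
    · ring
    · intro j hj g
      rw [mem_range] at hj
      rw [neg_add_cancel, zero_pow (by omega), mul_zero]

end Pool.Agent.H.MP_f98a08_co
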